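import Pool.Agent.H631.DB.Stm2

/-!
# COVR: random reals are in no coded null set
-/

set_option autoImplicit false
set_option linter.unusedSectionVars false

namespace Pool.Agent.H25.DB.COVR

open Cardinal MeasureTheory Pool.Agent.Helper669.Forcing Pool.Agent.H631.DB

/-- a condition meets one of countably many measurable sets in a condition -/
theorem piece {M ι : Type} [Countable ι] (q : RR M) (E : ι → Set (M → unitInterval))
    (hE : ∀ i, MeasurableSet (E i)) (h : ∀ᵐ ω ∂(mu M), ω ∈ q.1 → ∃ i, ω ∈ E i) :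
    ∃ r : RR M, r ≤ q ∧ ∃ i, r.1 ⊆ E i := by
  by_contra hcon
  push Not at hcon
  have h1 : ∀ i, mu M (q.1 ∩ E i) = 0 := by
    intro i
    by_contra h0
    exact hcon ⟨q.1 ∩ E i, q.2.1.inter (hE i), h0⟩ (fun _ hx => hx.1) i (fun _ hx => hx.2)
  have h2 : ∀ᵐ ω ∂(mu M), ∀ i, ω ∉ q.1 ∩ E i := by
    rw [ae_all_iff]
    intro i
    exact measure_eq_zero_iff_ae_notMem.mp (h1 i)
  have h3 : ∀ᵐ ω ∂(mu M), ω ∉ q.1 := by
    filter_upwards [h, h2] with ω ha hb hq
    obtain ⟨i, hi⟩ := ha hq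
    exact hb i ⟨hq, hi⟩
  exact q.2.2 (measure_eq_zero_iff_ae_notMem.mpr h3)

theorem nonempty {M : Type} (q : RR M) : ∃ ω, ω ∈ q.1 := by
  by_contra h
  push Not at h
  have : q.1 = ∅ := Set.eq_empty_iff_forall_notMem.mpr h
  apply q.2.2
  rw [this, measure_empty]

theorem sg_le {M : Type} (S : Set M) : sg S ≤ MeasurableSpace.pi :=
  iSup₂_le fun i _ => le_iSup (fun i : M =>
    MeasurableSpace.comap (fun ω : M → unitInterval => ω i) inferInstance) i

theorem sg_mono {M : Type} {S T : Set M} (h : S ⊆ T) : sg S ≤ sg T :=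
  iSup₂_le fun i hi => le_iSup₂_of_le i (h hi) le_rfl

/-- the name of the digits -/
def yn (M : Type) (m : M) (j v : ℕ) : Set (RR M) :=
  {r | ∀ ω ∈ r.1, ⌊(2 : ℝ) ^ j * (ω m : ℝ)⌋₊ = v}

theorem yn_down {M : Type} (m : M) (j v : ℕ) : Down (yn M m j v) :=
  fun _ hp _ hq ω hω => hp ω (hq hω)

theorem meas_floor {M : Type} (m : M) (j v : ℕ) :
    MeasurableSet {ω : M → unitInterval | ⌊(2 : ℝ) ^ j * (ω m : ℝ)⌋₊ = v} := by
  have h : Measurable fun ω : M → unitInterval => ⌊(2 : ℝ) ^ j * (ω m : ℝ)⌋₊ := by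
    refine Nat.measurable_floor.comp ?_
    exact (measurable_const.mul (measurable_subtype_coe.comp (measurable_pi_apply m)))
  exact h (measurableSet_singleton v)

theorem floor_two (t : ℝ) (ht : 0 ≤ t) : ⌊2 * t⌋₊ = 2 * ⌊t⌋₊ ∨ ⌊2 * t⌋₊ = 2 * ⌊t⌋₊ + 1 := by
  have h1 := Nat.floor_le ht
  have h2 := Nat.lt_floor_add_one t
  have h3 : 2 * ⌊t⌋₊ ≤ ⌊2 * t⌋₊ := by
    apply Nat.le_floor
    push_cast
    linarith
  have h4 : ⌊2 * t⌋₊ < 2 * ⌊t⌋₊ + 2 := by
    rw [Nat.floor_lt (by linarith)]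
    push_cast
    linarith
  omega

theorem th_COVR : S_CCCR → S_COVR := by
  intro _ hN hS hI M D hbig p
  unfold CovBigN
  intro c
  rw [mem_fimp]
  intro q0 _ hq0
  refine ⟨q0, le_rfl, ?_⟩
  rw [mem_fex]
  intro q hqq0
  refine ⟨q, le_rfl, ?_⟩
  -- the hypotheses for q
  have hfun : ∀ d, q ∈ IsFun (c d) := fun d => down_IsFun (c d) _ (hq0 d).1 q hqq0
  have hsm : ∀ d, ∀ s : List ℕ, q ∈ fimp (InitSeg s (c d)) (fground (Small s)) :=
    fun d s => down_fimp _ _ _ ((hq0 d).2 s) q hqq0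
  choose S g hSc hgm hg using fun d => hN M (c d) q (hfun d)
  obtain ⟨B, hBc, hB⟩ := hS M q.1 q.2.1
  obtain ⟨m, hmB, hmS⟩ := hbig S hSc B hBc
  have hgm' : ∀ d n v, MeasurableSet {ω | g d n ω = v} := fun d n v => sg_le _ _ (hgm d n v)
  refine ⟨yn M m, ⟨⟨?_, ?_⟩, ?_, ?_⟩⟩
  · -- total
    intro j
    rw [mem_fex]
    intro q' _
    obtain ⟨r, hr, v, hv⟩ := piece q' (fun v => {ω : M → unitInterval | ⌊(2 : ℝ) ^ j * (ω m : ℝ)⌋₊ = v})
      (meas_floor m j) (Filter.Eventually.of_forall fun ω _ => ⟨_, rfl⟩)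
    exact ⟨r, hr, v, meets_of_mem fun ω hω => hv hω⟩
  · -- unique
    intro j v w
    rw [mem_fimp]
    rintro q' _ ⟨h1, h2⟩
    refine ⟨q', le_rfl, ?_⟩
    obtain ⟨r, hr, hr1⟩ := exists_of_meets (yn_down m j v) h1
    obtain ⟨r', hr', hr2⟩ := exists_of_meets (yn_down m j w) (down_meets _ _ h2 r hr)
    obtain ⟨ω, hω⟩ := nonempty r'
    exact (hr1 ω (hr' hω)).symm.trans (hr2 ω hω)
  · -- coherent
    intro j v w
    rw [mem_fimp]
    rintro q' _ ⟨h1, h2⟩
    refine ⟨q', le_rfl, ?_⟩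
    obtain ⟨r, hr, hr1⟩ := exists_of_meets (yn_down m j v) h1
    obtain ⟨r', hr', hr2⟩ := exists_of_meets (yn_down m (j + 1) w) (down_meets _ _ h2 r hr)
    obtain ⟨ω, hω⟩ := nonempty r'
    have e1 := hr1 ω (hr' hω)
    have e2 := hr2 ω hω
    have e3 : (2 : ℝ) ^ (j + 1) * (ω m : ℝ) = 2 * ((2 : ℝ) ^ j * (ω m : ℝ)) := by
      rw [pow_succ]
      ring
    rw [e3] at e2
    have e4 := floor_two ((2 : ℝ) ^ j * (ω m : ℝ)) (mul_nonneg (by positivity) (ω m).2.1)
    rw [e1, e2] at e4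
    exact e4
  · -- the null sets
    intro d
    rw [mem_fex]
    intro q' hq'
    -- smallness
    have hsmall : ∀ᵐ ω ∂(mu M), ω ∈ q.1 → ∀ N, Small ((List.range N).map fun n => g d n ω) := by
      have h1 : ∀ s : List ℕ, ¬ Small s → mu M (q.1 ∩ {ω | ∀ i, i < s.length → g d i ω = s.getD i 0}) = 0 := by
        intro s hs
        by_contra h0
        have hmeas : MeasurableSet {ω : M → unitInterval | ∀ i, i < s.length → g d i ω = s.getD i 0} := by
          have : {ω : M → unitInterval | ∀ i, i < s.length → g d i ω = s.getD i 0} =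
              ⋂ i : ℕ, ⋂ _ : i < s.length, {ω | g d i ω = s.getD i 0} := by
            ext ω
            simp
          rw [this]
          exact MeasurableSet.iInter fun i => MeasurableSet.iInter fun _ => hgm' d i _
        have hle : (⟨_, q.2.1.inter hmeas, h0⟩ : RR M) ≤ q := fun _ hx => hx.1
        obtain ⟨r, _, hr⟩ := mem_fimp.mp (hsm d s) _ hle (by
          intro i hi
          exact hg d _ hle i _ (fun ω hω => hω.2 i hi))
        exact hs hr
      have h2 : ∀ᵐ ω ∂(mu M), ∀ s : List ℕ, ¬ Small s →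
          ω ∉ q.1 ∩ {ω | ∀ i, i < s.length → g d i ω = s.getD i 0} := by
        rw [ae_all_iff]
        intro s
        by_cases hs : Small s
        · exact Filter.Eventually.of_forall fun ω h => absurd hs h
        · filter_upwards [measure_eq_zero_iff_ae_notMem.mp (h1 s hs)] with ω hω _
          exact hω
      filter_upwards [h2] with ω hω hq N
      by_contra hs
      apply hω _ hs
      refine ⟨hq, fun i hi => ?_⟩
      rw [List.length_map, List.length_range] at hi
      rw [List.getD_eq_getElem?_getD, List.getElem?_map, List.getElem?_range hi]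
      rfl
    have hind := hI M (S d ∪ B) m (g d) q.1 (by
        rintro (h | h)
        · exact hmS d h
        · exact hmB h)
      (fun n v => sg_mono Set.subset_union_left _ (hgm d n v))
      (sg_mono Set.subset_union_right _ hB) hsmall
    have hgmeas : ∀ n, Measurable (g d n) := by
      intro n
      refine measurable_to_countable' fun v => ?_
      exact hgm' d n v
    have hEm : ∀ N : ℕ, MeasurableSet {ω : M → unitInterval | ∀ n, N ≤ n →
        ⌊(2 : ℝ) ^ (g d n ω).unpair.1 * (ω m : ℝ)⌋₊ ≠ (g d n ω).unpair.2} := by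
      intro N
      have : {ω : M → unitInterval | ∀ n, N ≤ n →
          ⌊(2 : ℝ) ^ (g d n ω).unpair.1 * (ω m : ℝ)⌋₊ ≠ (g d n ω).unpair.2} =
          ⋂ n : ℕ, ⋂ _ : N ≤ n, ⋂ v : ℕ, ({ω | g d n ω = v} ∩
            {ω | ⌊(2 : ℝ) ^ v.unpair.1 * (ω m : ℝ)⌋₊ = v.unpair.2})ᶜ := by
        ext ω
        simp only [Set.mem_ofPred_eq, Set.mem_iInter, Set.mem_compl_iff, Set.mem_inter_iff, not_and]
        constructor
        · intro h n hn v hv
          subst hv
          exact h n hn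
        · intro h n hn
          exact h n hn _ rfl
      rw [this]
      exact MeasurableSet.iInter fun n => MeasurableSet.iInter fun _ => MeasurableSet.iInter
        fun v => ((hgm' d n v).inter (meas_floor m _ _)).compl
    obtain ⟨r, hr, N, hrN⟩ := piece q' (fun N : ℕ => {ω : M → unitInterval | ∀ n, N ≤ n →
        ⌊(2 : ℝ) ^ (g d n ω).unpair.1 * (ω m : ℝ)⌋₊ ≠ (g d n ω).unpair.2}) hEm (by
      filter_upwards [hind] with ω hω hq2
      exact hω (hq' hq2))
    refine ⟨r, hr, N, fun n => ?_⟩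
    rw [mem_fimp]
    intro r' hr' hn
    refine ⟨r', le_rfl, fun v => ?_⟩
    rw [mem_fimp]
    intro r'' hr'' hc
    refine ⟨r'', le_rfl, ?_⟩
    intro t ht htm
    obtain ⟨t', ht', hty⟩ := exists_of_meets (yn_down m _ _) htm
    obtain ⟨u, hu, w, huw⟩ := piece t' (fun w => {ω | g d n ω = w}) (hgm' d n)
      (Filter.Eventually.of_forall fun ω _ => ⟨_, rfl⟩)
    have hur : u ≤ r'' := hu.trans (ht'.trans ht)
    have huq : u ≤ q := hur.trans (hr''.trans (hr'.trans (hr.trans hq')))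
    have hu1 : u ∈ meets (c d n w) := hg d u huq n w fun ω hω => huw hω
    have hu2 : u ∈ meets (c d n v) := down_meets _ _ hc u hur
    have hwv : w = v := IsFun.unique (down_IsFun (c d) _ (hfun d) u huq) hu1 hu2
    obtain ⟨ω, hω⟩ := nonempty u
    have e1 : g d n ω = v := (huw hω).trans hwv
    have e2 := hrN (hr' (hr'' (hur hω))) n hn
    rw [e1] at e2
    exact e2 (hty ω (hu hω))

end Pool.Agent.H25.DB.COVR
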